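import Pool.Agent.QUD.StmtsV

/-! # Squad QUD, row SQI: an elementary integral. -/

set_option autoImplicit false

namespace Pool.Agent.QUD.H42

open MeasureTheory Filter Topology Real Set

theorem sqi : SqiStmt := by
  intro A B hA hB
  have hAB : 0 < A + B := by linarith
  set s := √(A * (A + B)) with hs
  have hs0 : 0 < s := Real.sqrt_pos.mpr (mul_pos hA hAB)
  have hs2 : s ^ 2 = A * (A + B) := Real.sq_sqrt (mul_pos hA hAB).le
  -- the slope of the tangent: `A / s`
  set c := A / s with hc
  have hc0 : 0 < c := div_pos hA hs0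
  have hc2 : c ^ 2 * (A + B) = A := by
    rw [hc, div_pow, hs2]
    field_simp
  have hcs : c * (A + B) = s := by
    rw [hc, div_mul_eq_mul_div, div_eq_iff hs0.ne', ← pow_two, hs2]
  have hpos : ∀ t, 0 < A + B * cos t ^ 2 := fun t => by positivity
  have hcont : Continuous fun t => 1 / (A + B * cos t ^ 2) := by
    apply Continuous.div continuous_const (by fun_prop)
    intro t
    exact (hpos t).ne'
  rw [← MeasureTheory.integral_Ioc_eq_integral_Ioo,
    ← intervalIntegral.integral_of_le (by positivity)]
  rw [intervalIntegral.integral_eq_sub_of_hasDerivAt_of_tendsto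
    (f := fun t => arctan (c * tan t) / s) (fa := 0) (fb := π / 2 / s) (by positivity) ?_
    (hcont.intervalIntegrable _ _) ?_ ?_]
  · rw [sub_zero]
    field_simp
  · intro t ht
    have hcos : 0 < cos t := Real.cos_pos_of_mem_Ioo ⟨by linarith [ht.1, Real.pi_pos], ht.2⟩
    have h1 := (((Real.hasDerivAt_tan hcos.ne').const_mul c).arctan).div_const s
    refine h1.congr_deriv ?_
    rw [Real.tan_eq_sin_div_cos]
    have h2 : 0 < 1 + (c * (sin t / cos t)) ^ 2 := by positivity
    have h3 : sin t ^ 2 = 1 - cos t ^ 2 := by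
      have := Real.sin_sq_add_cos_sq t
      linarith
    have h4 : (1 + (c * (sin t / cos t)) ^ 2) * cos t ^ 2 * (A + B) = A + B * cos t ^ 2 := by
      have : (1 + (c * (sin t / cos t)) ^ 2) * cos t ^ 2 * (A + B) =
          cos t ^ 2 * (A + B) + (c ^ 2 * (A + B)) * sin t ^ 2 := by
        field_simp
      rw [this, hc2, h3]
      ring
    have h5 := hpos t
    rw [← h4]
    field_simp
    nlinarith [hcs]
  · have h1 : Tendsto (fun t => arctan (c * tan t) / s) (𝓝 0) (𝓝 (arctan (c * tan 0) / s)) := by
      apply ContinuousAt.tendsto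
      have : ContinuousAt tan 0 := Real.continuousAt_tan.mpr (by simp)
      exact ((Real.continuous_arctan.continuousAt).comp (this.const_mul c)).div_const s
    rw [Real.tan_zero, mul_zero, Real.arctan_zero, zero_div] at h1
    exact h1.mono_left nhdsWithin_le_nhds
  · apply Tendsto.div_const
    have h1 : Tendsto (fun t => c * tan t) (𝓝[<] (π / 2)) atTop :=
      Real.tendsto_tan_pi_div_two.const_mul_atTop hc0
    exact (tendsto_arctan_atTop.mono_right nhdsWithin_le_nhds).comp h1

end Pool.Agent.QUD.H42
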